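import Pool.Agent.helper94.T7.DefsF

set_option autoImplicit false

/-!
# T7, block TAS: the weighted asymptotic along a filter
-/

namespace Pool.Agent.T7

open Finset Filter Pool.Agent.T5 Pool.Agent.T5T

lemma TF_main (b : T5V.Bx) (e : ℕ) (c : Fin 5 → ℤ) :
    mainE (aa b) (bb b) e c = b.mu * (6 / Real.pi ^ 2) /
      ((∏ p ∈ e.primeFactors, (1 - 1 / (p : ℝ) ^ 2)) * ((e : ℝ) ^ 4 * (e1 e (c 0).natAbs : ℝ))) := by
  have h : (((aa b 0) ^ 2)⁻¹ - ((bb b 0) ^ 2)⁻¹) / 2 * Real.log (bb b 1 / aa b 1) *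
      (bb b 2 - aa b 2) * (bb b 3 - aa b 3) * (bb b 4 - aa b 4) = b.mu := by
    simp only [aa, bb, T5V.Bx.mu, Matrix.cons_val_zero, Matrix.cons_val_one, Matrix.cons_val]
    simp only [one_div]
    ring
  unfold mainE
  rw [h]

open Classical in
/-- the asymptotic in a box -/
theorem TF7 (hPC : Pool.Agent.T5P.PC_stmt) (hPIN : Pool.Agent.T5P.PIN_stmt) (hTA4 : TA4_stmt)
    (hTA5 : TA5_stmt) (hTA6 : TA6_stmt) (F : Filter (ℝ × ℝ × ℝ))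
    (hpos : ∀ᶠ x in F, 0 < x.1 ∧ 0 < x.2.1 ∧ 0 < x.2.2) (hE : EQF F) (b : T5V.Bx)
    (hlt : ∀ i, b.lo i < b.hi i) (h0 : 0 < b.lo 0) (h1 : 0 < b.lo 1) (h2 : 0 < b.lo 2)
    (w : ℕ) (ε : ℝ) (hε : 0 < ε) : ∀ᶠ x in F,
    ∀ S : Finset Tpl, (∀ t, t ∈ S ↔ IsT t ∧ sp x.1 x.2.1 x.2.2 t ∈ b.set) →
    |∑ t ∈ S, fw w t - x.2.1 * x.2.2 * (b.mu * (6 / Real.pi ^ 2) *
      ∏ p ∈ pr w, (1 - 1 / (p : ℝ) ^ 2))| ≤ ε * (x.2.1 * x.2.2) := by
  have hS : ∀ p ∈ pr w, p.Prime := fun p hp => (Finset.mem_filter.mp hp).2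
  obtain ⟨he1, hpf, hedvd, -, hFF⟩ := hTA5 (pr w) hS
  have hPCw := hPC (pr w) hS
  obtain ⟨hPI, -⟩ := hPIN (pr w) hS
  have hP := TA7_prod_pos (pr w) hS
  have hB := TA7_B_pos (pr w) hS
  have hsix := hTA6 w
  set e : ℕ := T5P.ee (pr w) with he
  set P : ℝ := ∏ p ∈ pr w, (1 - 1 / (p : ℝ) ^ 2) with hPdef
  set B : ℝ := ∏ p ∈ pr w, ((p : ℝ) / (p - 1)) ^ 2 with hBdef
  have he0 : (0 : ℝ) < e := by exact_mod_cast he1
  set ε' : ℝ := ε / ((e : ℝ) ^ 5 * B) with hε'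
  have hε0 : 0 < ε' := by positivity
  set X : Finset (ℕ × ℕ × ℕ × ℕ × ℕ) := range e ×ˢ range e ×ˢ range e ×ˢ range e ×ˢ range e
    with hX
  have hXcard : (X.card : ℝ) = (e : ℝ) ^ 5 := by
    rw [hX]
    simp only [Finset.card_product, Finset.card_range]
    push_cast
    ring
  have key : ∀ x : ℕ × ℕ × ℕ × ℕ × ℕ, ∀ᶠ y in F,
      T5P.FF (pr w) x.1 x.2.1 x.2.2.1 x.2.2.2.1 x.2.2.2.2 ≠ 0 →
      ∀ S : Finset Tpl, (∀ t, t ∈ S ↔ InCell y.1 y.2.1 y.2.2 (aa b) (bb b) e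
        ![(x.1 : ℤ), x.2.1, x.2.2.1, x.2.2.2.1, x.2.2.2.2] t) →
      |(S.card : ℝ) - y.2.1 * y.2.2 * (b.mu * (6 / Real.pi ^ 2) /
        (P * ((e : ℝ) ^ 4 * (e1 e x.1 : ℝ))))| ≤ ε' * (y.2.1 * y.2.2) := by
    intro x
    by_cases hx : T5P.FF (pr w) x.1 x.2.1 x.2.2.1 x.2.2.2.1 x.2.2.2.2 = 0
    · exact Filter.Eventually.of_forall fun y h => absurd hx h
    · refine (hE (aa b) (bb b) h1 h2 h0
        (by
          intro i
          fin_cases i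
          · exact hlt 1
          · exact hlt 2
          · exact hlt 3
          · exact hlt 4
          · exact hlt 0) e ![(x.1 : ℤ), x.2.1, x.2.2.1, x.2.2.2.1, x.2.2.2.2] he1
        (fun p hp hpe => hFF _ _ _ _ _ hx p hp hpe) ε' hε0).mono fun y hy _ S hSS => ?_
      have h := hy S hSS
      rw [TF_main b e, hpf] at h
      exact h
  filter_upwards [hpos, (Finset.eventually_all X).mpr fun x _ => key x] with y hyp hyk S hSS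
  obtain ⟨hN0, hY0, hYY⟩ := hyp
  set N : ℝ := y.1
  set Y : ℝ := y.2.1
  set Y₂ : ℝ := y.2.2
  have hQ : 0 < Y * Y₂ := mul_pos hY0 hYY
  have hs1 : ∑ t ∈ S, fw w t = ∑ x ∈ X, T5P.FF (pr w) x.1 x.2.1 x.2.2.1 x.2.2.2.1 x.2.2.2.2 *
      ((e1 e x.1 : ℝ) / (e : ℝ)) *
        ((S.filter (fun t => cls e x.1 x.2.1 x.2.2.1 x.2.2.2.1 x.2.2.2.2 t)).card : ℝ) := by
    rw [hsix S (fun t ht => ((hSS t).mp ht).1), hX]
    simp only [Finset.sum_product]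
  have hs2 : ∑ x ∈ X, T5P.FF (pr w) x.1 x.2.1 x.2.2.1 x.2.2.2.1 x.2.2.2.2 =
      (e : ℝ) ^ 5 * P ^ 2 := by
    have a1 : (∏ p ∈ pr w, (1 - 1 / (p : ℝ) ^ 2) ^ 2) = P ^ 2 := by
      rw [hPdef, Finset.prod_pow]
    rw [← a1, ← hPCw, hX]
    simp only [Finset.sum_product]
  have hterm : ∀ x ∈ X, |T5P.FF (pr w) x.1 x.2.1 x.2.2.1 x.2.2.2.1 x.2.2.2.2 *
      ((e1 e x.1 : ℝ) / (e : ℝ)) *
        ((S.filter (fun t => cls e x.1 x.2.1 x.2.2.1 x.2.2.2.1 x.2.2.2.2 t)).card : ℝ) -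
      T5P.FF (pr w) x.1 x.2.1 x.2.2.1 x.2.2.2.1 x.2.2.2.2 *
        (Y * Y₂ * (b.mu * (6 / Real.pi ^ 2)) / (P * (e : ℝ) ^ 5))| ≤ B * (ε' * (Y * Y₂)) := by
    intro x hx
    by_cases hx0 : T5P.FF (pr w) x.1 x.2.1 x.2.2.1 x.2.2.2.1 x.2.2.2.2 = 0
    · rw [hx0, zero_mul, zero_mul, zero_mul, sub_zero, abs_zero]
      positivity
    · obtain ⟨d1, d2, -⟩ := hedvd x.1
      have d3 : e1 e x.1 ≤ e := Nat.le_of_dvd he1 d1
      have d4 : (0 : ℝ) < (e1 e x.1 : ℝ) := by exact_mod_cast d2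
      have d5 : (e1 e x.1 : ℝ) / (e : ℝ) ≤ 1 := by
        rw [div_le_one he0]; exact_mod_cast d3
      have hc := hyk x hx hx0
        (S.filter (fun t => cls e x.1 x.2.1 x.2.2.1 x.2.2.2.1 x.2.2.2.2 t)) (by
          intro t
          rw [hTA4 N Y Y₂ hN0 hY0 hYY b e _ _ _ _ _ t, Finset.mem_filter, hSS t]
          tauto)
      have a1 : T5P.FF (pr w) x.1 x.2.1 x.2.2.1 x.2.2.2.1 x.2.2.2.2 *
          (Y * Y₂ * (b.mu * (6 / Real.pi ^ 2)) / (P * (e : ℝ) ^ 5)) =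
          T5P.FF (pr w) x.1 x.2.1 x.2.2.1 x.2.2.2.1 x.2.2.2.2 * ((e1 e x.1 : ℝ) / (e : ℝ)) *
          (Y * Y₂ * (b.mu * (6 / Real.pi ^ 2) / (P * ((e : ℝ) ^ 4 * (e1 e x.1 : ℝ))))) := by
        field_simp
      rw [a1, ← mul_sub, abs_mul]
      obtain ⟨f0, f1⟩ := hPI x.1 x.2.1 x.2.2.1 x.2.2.2.1 x.2.2.2.2
      have a2 : |T5P.FF (pr w) x.1 x.2.1 x.2.2.1 x.2.2.2.1 x.2.2.2.2 *
          ((e1 e x.1 : ℝ) / (e : ℝ))| ≤ B := by
        rw [abs_of_nonneg (mul_nonneg f0 (by positivity))]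
        calc _ ≤ T5P.FF (pr w) x.1 x.2.1 x.2.2.1 x.2.2.2.1 x.2.2.2.2 * 1 :=
              mul_le_mul_of_nonneg_left d5 f0
          _ ≤ B := by rw [mul_one]; exact f1
      exact mul_le_mul a2 hc (abs_nonneg _) hB.le
  have hmain : Y * Y₂ * (b.mu * (6 / Real.pi ^ 2) * P) =
      ∑ x ∈ X, T5P.FF (pr w) x.1 x.2.1 x.2.2.1 x.2.2.2.1 x.2.2.2.2 *
        (Y * Y₂ * (b.mu * (6 / Real.pi ^ 2)) / (P * (e : ℝ) ^ 5)) := by
    rw [← Finset.sum_mul, hs2]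
    field_simp
  rw [hmain, hs1, ← Finset.sum_sub_distrib]
  refine (Finset.abs_sum_le_sum_abs _ _).trans ((Finset.sum_le_sum hterm).trans (le_of_eq ?_))
  rw [Finset.sum_const, nsmul_eq_mul, hXcard, hε']
  field_simp

theorem TF9 (hTA3 : TA3_stmt) (hTA8 : TA8_stmt) (hV : T5V.V_stmt)
    (hPC : Pool.Agent.T5P.PC_stmt) (hPIN : Pool.Agent.T5P.PIN_stmt) (hTA4 : TA4_stmt)
    (hTA5 : TA5_stmt) (hTA6 : TA6_stmt) : TF_stmt := by
  classical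
  intro F hpos hE κ hκ hκ1 w hw ε hε
  obtain ⟨hP0, hP1⟩ := TA9_prod w
  set Pw : ℝ := ∏ p ∈ pr w, (1 - 1 / (p : ℝ) ^ 2) with hPw
  obtain ⟨c, r, b, I, hc, hok, hdis, hcov, hin, hsum, hsumI⟩ :=
    hV κ (ε / 2) hκ (by linarith) (by linarith)
  have key : ∀ i : Fin r, ∀ᶠ x in F,
      ∀ S : Finset Tpl, (∀ t, t ∈ S ↔ IsT t ∧ sp x.1 x.2.1 x.2.2 t ∈ (b i).set) →
      |∑ t ∈ S, fw w t - x.2.1 * x.2.2 * ((b i).mu * (6 / Real.pi ^ 2) * Pw)| ≤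
        ε / (2 * ((r : ℝ) + 1)) * (x.2.1 * x.2.2) := by
    intro i
    obtain ⟨h1, h2, h3, h4, -, -⟩ := hok i
    exact TF7 hPC hPIN hTA4 hTA5 hTA6 F hpos hE (b i) h1 (lt_of_lt_of_le hc h4)
      (lt_of_lt_of_le hc h2) (lt_of_lt_of_le hc h3) w
      (ε / (2 * ((r : ℝ) + 1))) (by positivity)
  filter_upwards [hpos, eventually_all.mpr key] with y hyp hyk S hF
  obtain ⟨hN0, hY0, hYY⟩ := hyp
  set N : ℝ := y.1
  set Y : ℝ := y.2.1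
  set Y₂ : ℝ := y.2.2
  have hQ : 0 < Y * Y₂ := mul_pos hY0 hYY
  let Fb : Fin r → Finset Tpl := fun i =>
    ((hTA8 N Y Y₂ hN0 hY0 hYY (b i)).toFinset).filter (fun t => IsT t)
  have hFb : ∀ i t, t ∈ Fb i ↔ IsT t ∧ sp N Y Y₂ t ∈ (b i).set := by
    intro i t
    simp only [Fb, Finset.mem_filter, Set.Finite.mem_toFinset, Set.mem_ofPred_eq]
    tauto
  have hdisF : ∀ i j, i ≠ j → Disjoint (Fb i) (Fb j) := by
    intro i j hij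
    rw [Finset.disjoint_left]
    intro t h1 h2
    exact Set.disjoint_left.mp (hdis i j hij) ((hFb i t).mp h1).2 ((hFb j t).mp h2).2
  have hbox : ∀ i, |∑ t ∈ Fb i, fw w t - Y * Y₂ * ((b i).mu * (6 / Real.pi ^ 2) * Pw)| ≤
      ε / (2 * ((r : ℝ) + 1)) * (Y * Y₂) := fun i => hyk i (Fb i) (hFb i)
  set E : ℝ := ε / (2 * ((r : ℝ) + 1)) with hEdef
  have hE0 : 0 < E := by positivity
  have hrE : ∀ x : ℝ, 0 ≤ x → x ≤ r → x * E ≤ ε / 2 := by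
    intro x h0 h1
    rw [hEdef, ← mul_div_assoc, div_le_div_iff₀ (by positivity) (by norm_num)]
    nlinarith
  set c' : ℝ := 6 / Real.pi ^ 2 * Pw with hc'
  have hc0 : 0 ≤ c' := mul_nonneg (by positivity) hP0
  have hc1 : c' ≤ 1 := mul_le_one₀ TA9_six hP0 hP1
  have hup : ∑ t ∈ S, fw w t ≤ ∑ i, ∑ t ∈ Fb i, fw w t := by
    rw [← Finset.sum_biUnion (fun i _ j _ hij => hdisF i j hij)]
    refine Finset.sum_le_sum_of_subset_of_nonneg ?_ fun t _ _ => TA9_fw_nonneg w t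
    intro t ht
    have h1 := (hTA3 κ N Y Y₂ hκ hN0 hY0 hYY t).mp ((hF t).mp ht)
    obtain ⟨i, hi⟩ := Set.mem_iUnion.mp (hcov h1.2)
    exact Finset.mem_biUnion.mpr ⟨i, Finset.mem_univ i, (hFb i t).mpr ⟨h1.1, hi⟩⟩
  have hlo : ∑ i ∈ I, ∑ t ∈ Fb i, fw w t ≤ ∑ t ∈ S, fw w t := by
    rw [← Finset.sum_biUnion (fun i _ j _ hij => hdisF i j hij)]
    refine Finset.sum_le_sum_of_subset_of_nonneg ?_ fun t _ _ => TA9_fw_nonneg w t
    intro t ht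
    obtain ⟨i, hi, h2⟩ := Finset.mem_biUnion.mp ht
    have h3 := (hFb i t).mp h2
    exact (hF t).mpr ((hTA3 κ N Y Y₂ hκ hN0 hY0 hYY t).mpr ⟨h3.1, hin i hi h3.2⟩)
  have hup2 : ∑ i, ∑ t ∈ Fb i, fw w t ≤ Y * Y₂ * (c' * ∑ i, (b i).mu) + (r : ℝ) * E * (Y * Y₂) := by
    have h1 : ∀ i ∈ (Finset.univ : Finset (Fin r)), ∑ t ∈ Fb i, fw w t ≤
        Y * Y₂ * (c' * (b i).mu) + E * (Y * Y₂) := by
      intro i _
      have h2 := (abs_le.mp (hbox i)).2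
      have h3 : (b i).mu * (6 / Real.pi ^ 2) * Pw = c' * (b i).mu := by rw [hc']; ring
      rw [h3] at h2
      linarith
    refine (Finset.sum_le_sum h1).trans (le_of_eq ?_)
    rw [Finset.sum_add_distrib, ← Finset.mul_sum, ← Finset.mul_sum]
    simp only [Finset.sum_const, Finset.card_univ, Fintype.card_fin, nsmul_eq_mul]
    ring
  have hlo2 : Y * Y₂ * (c' * ∑ i ∈ I, (b i).mu) - (I.card : ℝ) * E * (Y * Y₂) ≤
      ∑ i ∈ I, ∑ t ∈ Fb i, fw w t := by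
    have h1 : ∀ i ∈ I, Y * Y₂ * (c' * (b i).mu) - E * (Y * Y₂) ≤ ∑ t ∈ Fb i, fw w t := by
      intro i _
      have h2 := (abs_le.mp (hbox i)).1
      have h3 : (b i).mu * (6 / Real.pi ^ 2) * Pw = c' * (b i).mu := by rw [hc']; ring
      rw [h3] at h2
      linarith
    refine le_trans (le_of_eq ?_) (Finset.sum_le_sum h1)
    rw [Finset.sum_sub_distrib, ← Finset.mul_sum, ← Finset.mul_sum]
    simp only [Finset.sum_const, nsmul_eq_mul]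
    ring
  have hIr : (I.card : ℝ) ≤ r := by
    have h1 := Finset.card_le_univ I
    rw [Fintype.card_fin] at h1
    exact_mod_cast h1
  have e1 := hrE r (by positivity) (le_refl _)
  have e2 := hrE I.card (by positivity) hIr
  have hm : Y * Y₂ * (T5V.Iv κ * (6 / Real.pi ^ 2) * Pw) = Y * Y₂ * (c' * T5V.Iv κ) := by
    rw [hc']; ring
  rw [hm, abs_le]
  have u1 : c' * ∑ i, (b i).mu ≤ c' * T5V.Iv κ + ε / 2 := by
    have h1 : c' * ∑ i, (b i).mu ≤ c' * (T5V.Iv κ + ε / 2) := mul_le_mul_of_nonneg_left hsum hc0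
    have h2 : c' * (ε / 2) ≤ 1 * (ε / 2) := mul_le_mul_of_nonneg_right hc1 (by linarith)
    linarith [mul_add c' (T5V.Iv κ) (ε / 2)]
  have u2 : c' * T5V.Iv κ - ε / 2 ≤ c' * ∑ i ∈ I, (b i).mu := by
    have h1 : c' * (T5V.Iv κ - ε / 2) ≤ c' * ∑ i ∈ I, (b i).mu :=
      mul_le_mul_of_nonneg_left hsumI hc0
    have h2 : c' * (ε / 2) ≤ 1 * (ε / 2) := mul_le_mul_of_nonneg_right hc1 (by linarith)
    linarith [mul_sub c' (T5V.Iv κ) (ε / 2)]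
  constructor
  · have v1 := mul_le_mul_of_nonneg_left u2 hQ.le
    have v2 := mul_le_mul_of_nonneg_right e2 hQ.le
    nlinarith [hlo, hlo2, v1, v2]
  · have v1 := mul_le_mul_of_nonneg_left u1 hQ.le
    have v2 := mul_le_mul_of_nonneg_right e1 hQ.le
    nlinarith [hup, hup2, v1, v2]

/-- **TF**: block TAS along a filter, no hypotheses -/
theorem TF : TF_stmt := by
  obtain ⟨hPL, hPC, hPIN⟩ := T5P.P_all
  have h6 := TA6 hPIN (TA2 hPL TA1) TA5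
  exact TF9 (TA3 TA1) TA8 V_all hPC hPIN TA4 TA5 h6

end Pool.Agent.T7
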