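import Pool.Agent.helper94.T5.AsmTAS

set_option autoImplicit false

/-!
# T7 (MP_16912e_nt), block TAS: the weighted asymptotic along a filter

A point of the filter is `(N, Y, Y₂)`.  `EQF F`: equidistribution in boxes with fixed classes.
`TASF F`: the weighted asymptotic for the central set.
-/

namespace Pool.Agent.T7

open Finset Filter Pool.Agent.T5

/-- the main term of EQC -/
noncomputable def mainE (a b : Fin 5 → ℝ) (e : ℕ) (c : Fin 5 → ℤ) : ℝ :=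
  (((a 0) ^ 2)⁻¹ - ((b 0) ^ 2)⁻¹) / 2 * Real.log (b 1 / a 1) * (b 2 - a 2) * (b 3 - a 3) *
    (b 4 - a 4) * (6 / Real.pi ^ 2) / ((∏ p ∈ e.primeFactors, (1 - 1 / (p : ℝ) ^ 2)) *
      ((e : ℝ) ^ 4 * (e1 e (c 0).natAbs : ℝ)))

/-- equidistribution in boxes along the filter `F` -/
def EQF (F : Filter (ℝ × ℝ × ℝ)) : Prop :=
  ∀ a b : Fin 5 → ℝ, 0 < a 0 → 0 < a 1 → 0 < a 4 → (∀ i, a i < b i) →
  ∀ (e : ℕ) (c : Fin 5 → ℤ), 1 ≤ e → (∀ p : ℕ, p.Prime → p ∣ e → ¬ ((p : ℤ) ∣ c 0 ∧ (p : ℤ) ∣ c 1)) →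
  ∀ ε : ℝ, 0 < ε → ∀ᶠ x in F, ∀ S : Finset Tpl,
    (∀ t, t ∈ S ↔ InCell x.1 x.2.1 x.2.2 a b e c t) →
    |(S.card : ℝ) - x.2.1 * x.2.2 * mainE a b e c| ≤ ε * (x.2.1 * x.2.2)

/-- the weighted asymptotic along the filter `F`, `Iv κ` the volume of the central region -/
def TASF (F : Filter (ℝ × ℝ × ℝ)) : Prop :=
  ∀ κ : ℝ, 0 < κ → κ ≤ 1 / 100 → ∀ w : ℕ, 2 ≤ w → ∀ ε : ℝ, 0 < ε → ∀ᶠ x in F,
  ∀ S : Finset Tpl, (∀ t, t ∈ S ↔ Cen κ x.1 x.2.1 x.2.2 t) →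
    |∑ t ∈ S, fw w t - x.2.1 * x.2.2 * (T5V.Iv κ * (6 / Real.pi ^ 2) *
      ∏ p ∈ pr w, (1 - 1 / (p : ℝ) ^ 2))| ≤ ε * (x.2.1 * x.2.2)

/-- the filter of T7: `(N, ρ √N, R √N)`, first `ρ → 0`, then `N → ∞` -/
noncomputable def FR (R : ℝ) : Filter (ℝ × ℝ × ℝ) :=
  Filter.map (fun x : ℝ × ℝ => (x.2, x.1 * √x.2, R * √x.2)) (Filter.curry (nhdsWithin 0 (Set.Ioi 0)) atTop)

/-- **TASF_of_EQF**: the block.  `C` is the constant of `VLM`. -/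
def TF_stmt : Prop :=
  ∀ F : Filter (ℝ × ℝ × ℝ), (∀ᶠ x in F, 0 < x.1 ∧ 0 < x.2.1 ∧ 0 < x.2.2) → EQF F → TASF F

end Pool.Agent.T7
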